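import Mathlib

set_option autoImplicit false

/-!
# Net graphs and rough isometries (definitions of MP_6f70ff_gt)
-/

namespace Pool.Agent.NetGraphs

open SimpleGraph Filter Topology

variable {V W : Type*}

/-- the standing assumptions: connected, locally finite, infinite -/
structure Standing (G : SimpleGraph V) : Prop where
  connected : G.Connected
  locallyFinite : ∀ v, (G.neighborSet v).Finite
  infinite : Infinite V

/-- vertex transitivity -/
def VertexTransitive (G : SimpleGraph V) : Prop := ∀ u v : V, ∃ φ : G ≃g G, φ u = v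

/-- the ball of radius `r` about `v` -/
def ball (G : SimpleGraph V) (v : V) (r : ℝ) : Set V := {u | (G.dist v u : ℝ) ≤ r}

/-- pairwise distances at least `k` -/
def Separated (G : SimpleGraph V) (k : ℕ) (N : Set V) : Prop :=
  ∀ u ∈ N, ∀ v ∈ N, u ≠ v → k ≤ G.dist u v

/-- a `k`-net: a `k`-separated set that is maximal under inclusion -/
def IsNet (G : SimpleGraph V) (k : ℕ) (N : Set V) : Prop := Maximal (Separated G k) N

/-- the `k`-net graph on `N`: `u ∼ v` iff `0 < d_G(u,v) ≤ 2k` -/
def netGraph (G : SimpleGraph V) (k : ℕ) (N : Set V) : SimpleGraph N where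
  Adj u v := 0 < G.dist u.1 v.1 ∧ G.dist u.1 v.1 ≤ 2 * k
  symm := ⟨fun u v h => by rw [G.dist_comm]; exact h⟩
  loopless := ⟨fun u h => by simp at h⟩

/-- `f` is a `C`-rough isometry -/
def IsRoughIsometry (C : ℝ) (G : SimpleGraph V) (H : SimpleGraph W) (f : V → W) : Prop :=
  (∀ x y, C⁻¹ * (H.dist (f x) (f y) : ℝ) - C ≤ (G.dist x y : ℝ) ∧
    (G.dist x y : ℝ) ≤ C * (H.dist (f x) (f y) : ℝ) + C) ∧
  ∀ y, ∃ x, (H.dist (f x) y : ℝ) < C

/-- the infimum of the `C > 0` for which there is a `C`-rough isometry from `G` to `H`, in `[0, ∞]` -/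
noncomputable def roughConst (G : SimpleGraph V) (H : SimpleGraph W) : ENNReal :=
  ⨅ C : {C : ℝ // 0 < C ∧ ∃ f : V → W, IsRoughIsometry C G H f}, ENNReal.ofReal C.1

/-- a choice of one `k`-net for every `k ≥ 1` -/
def NetChoice (G : SimpleGraph V) (N : ℕ → Set V) : Prop := ∀ k, 1 ≤ k → IsNet G k (N k)

/-- the constants `C_k` for the choice `N` of the nets -/
noncomputable def CC (G : SimpleGraph V) (N : ℕ → Set V) (k : ℕ) : ENNReal :=
  roughConst G (netGraph G k (N k))

/-- sub scale invariant: `C_k → 1` for every choice of the nets -/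
def SubScaleInvariant (G : SimpleGraph V) : Prop :=
  ∀ N, NetChoice G N → Tendsto (CC G N) atTop (𝓝 1)

/-- volume doubling -/
def VolumeDoubling (G : SimpleGraph V) : Prop :=
  ∃ C : ℝ, 0 < C ∧ ∀ (v : V) (r : ℝ), 0 < r → ((ball G v (2 * r)).ncard : ℝ) ≤ C * ((ball G v r).ncard : ℝ)

end Pool.Agent.NetGraphs
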