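import Pool.Agent.NetGraphs.Defs

set_option autoImplicit false

namespace Pool.Agent.NetGraphs

open SimpleGraph Filter Topology

variable {V W : Type*}

/-! ### Geodesics, balls -/

theorem exists_between {G : SimpleGraph V} (hG : G.Connected) (a b : V) (m : ℕ) :
    ∃ c, G.dist a c ≤ m ∧ G.dist c b ≤ G.dist a b - m := by
  obtain ⟨w, hw⟩ := hG.exists_walk_length_eq_dist a b
  refine ⟨w.getVert m, ?_, ?_⟩
  · refine (dist_le (w.take m)).trans ?_
    rw [Walk.take_length]
    exact min_le_left _ _
  · refine (dist_le (w.drop m)).trans ?_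
    rw [Walk.drop_length, hw]

theorem ball_finite {G : SimpleGraph V} (hG : Standing G) (v : V) (r : ℝ) : (ball G v r).Finite := by
  have key : ∀ n : ℕ, {u | G.dist v u ≤ n}.Finite := by
    intro n
    induction n with
    | zero =>
      refine (Set.finite_singleton v).subset ?_
      intro u hu
      simp only [Set.mem_ofPred_eq, nonpos_iff_eq_zero] at hu
      rw [hG.connected.dist_eq_zero_iff] at hu
      exact hu.symm
    | succ n ih =>
      refine (ih.union (ih.biUnion (fun u _ => hG.locallyFinite u))).subset ?_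
      intro u hu
      simp only [Set.mem_ofPred_eq] at hu
      by_cases h : G.dist v u ≤ n
      · exact Or.inl h
      · right
        have h2 : G.dist v u = n + 1 := by omega
        obtain ⟨c, hc1, hc2⟩ := exists_between hG.connected v u n
        rw [Set.mem_iUnion₂]
        refine ⟨c, hc1, ?_⟩
        have h3 : G.dist c u ≤ 1 := by omega
        have h4 : G.dist c u ≠ 0 := by
          intro h0
          rw [hG.connected.dist_eq_zero_iff] at h0
          subst h0
          exact h hc1
        have h5 : G.dist c u = 1 := by omega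
        rw [dist_eq_one_iff_adj] at h5
        exact h5
  refine (key ⌊r⌋₊).subset ?_
  intro u hu
  have hu' : (G.dist v u : ℝ) ≤ r := hu
  exact Nat.le_floor hu'

theorem ball_mono {G : SimpleGraph V} (v : V) {r s : ℝ} (h : r ≤ s) : ball G v r ⊆ ball G v s :=
  fun _ hu => le_trans hu h

theorem ball_nonempty {G : SimpleGraph V} (v : V) {r : ℝ} (h : 0 ≤ r) : v ∈ ball G v r := by
  change (G.dist v v : ℝ) ≤ r
  simpa using h

theorem dist_iso {G : SimpleGraph V} (hG : G.Connected) (φ : G ≃g G) (u v : V) :
    G.dist (φ u) (φ v) = G.dist u v := by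
  have key : ∀ (ψ : G ≃g G) (a b : V), G.dist (ψ a) (ψ b) ≤ G.dist a b := by
    intro ψ a b
    obtain ⟨w, hw⟩ := hG.exists_walk_length_eq_dist a b
    rw [← hw]
    have := dist_le (w.map ψ.toHom)
    rw [Walk.length_map] at this
    exact this
  refine le_antisymm (key φ u v) ?_
  have := key φ.symm (φ u) (φ v)
  simpa using this

theorem ball_card_eq {G : SimpleGraph V} (hG : G.Connected) (ht : VertexTransitive G) (u v : V) (r : ℝ) :
    (ball G u r).ncard = (ball G v r).ncard := by
  obtain ⟨φ, hφ⟩ := ht u v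
  have h1 : ball G v r = φ '' ball G u r := by
    ext x
    constructor
    · intro hx
      refine ⟨φ.symm x, ?_, by simp⟩
      change (G.dist u (φ.symm x) : ℝ) ≤ r
      rw [← dist_iso hG φ u (φ.symm x), hφ, RelIso.apply_symm_apply]
      exact hx
    · rintro ⟨y, hy, rfl⟩
      change (G.dist v (φ y) : ℝ) ≤ r
      rw [← hφ, dist_iso hG φ]
      exact hy
  rw [h1, Set.ncard_image_of_injective _ φ.injective]

/-! ### Greedy nets -/

/-- closer to `v`, ties broken by a well-order -/
def earlier (G : SimpleGraph V) (v : V) (w u : V) : Prop :=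
  Prod.Lex (fun a b : ℕ => a < b) (WellOrderingRel : V → V → Prop) (G.dist v w, w) (G.dist v u, u)

theorem earlier_wf (G : SimpleGraph V) (v : V) : WellFounded (earlier G v) :=
  InvImage.wf (fun u : V => (G.dist v u, u))
    (WellFounded.prod_lex wellFounded_lt (WellOrderingRel.isWellOrder (α := V)).wf)

/-- the greedy net, built in order of the distance from `v` -/
noncomputable def greedy (G : SimpleGraph V) (v : V) (k : ℕ) : V → Prop :=
  (earlier_wf G v).fix (fun u rec => ∀ w (h : earlier G v w u), rec w h → k ≤ G.dist u w)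

theorem greedy_iff (G : SimpleGraph V) (v : V) (k : ℕ) (u : V) :
    greedy G v k u ↔ ∀ w, earlier G v w u → greedy G v k w → k ≤ G.dist u w := by
  unfold greedy
  rw [WellFounded.fix_eq]

theorem earlier_tri (G : SimpleGraph V) (v : V) (u w : V) (h : u ≠ w) : earlier G v u w ∨ earlier G v w u := by
  unfold earlier
  rcases lt_trichotomy (G.dist v u) (G.dist v w) with h1 | h1 | h1
  · left; exact Prod.Lex.left _ _ h1
  · rcases Classical.em (WellOrderingRel u w) with h2 | h2
    · left; rw [h1]; exact Prod.Lex.right _ h2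
    · right
      have h3 : WellOrderingRel w u := by
        by_contra h4
        exact h (trichotomous_of WellOrderingRel u w |>.resolve_left h2 |>.resolve_right h4)
      rw [h1]; exact Prod.Lex.right _ h3
  · right; exact Prod.Lex.left _ _ h1

theorem earlier_le (G : SimpleGraph V) (v : V) (u w : V) (h : earlier G v u w) : G.dist v u ≤ G.dist v w := by
  unfold earlier at h
  rw [Prod.lex_def] at h
  rcases h with h | h
  · exact le_of_lt h
  · exact le_of_eq h.1

/-- the greedy net as a set -/
noncomputable def gnet (G : SimpleGraph V) (v : V) (k : ℕ) : Set V := {u | greedy G v k u}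

theorem gnet_cover {G : SimpleGraph V} (v : V) {k : ℕ} (hk : 1 ≤ k) (u : V) :
    ∃ p ∈ gnet G v k, G.dist v p ≤ G.dist v u ∧ G.dist u p < k := by
  by_cases h : greedy G v k u
  · exact ⟨u, h, le_rfl, by simp; omega⟩
  · rw [greedy_iff] at h
    push Not at h
    obtain ⟨w, h1, h2, h3⟩ := h
    exact ⟨w, h2, earlier_le G v w u h1, h3⟩

theorem gnet_isNet {G : SimpleGraph V} (v : V) {k : ℕ} (hk : 1 ≤ k) : IsNet G k (gnet G v k) := by
  constructor
  · intro u hu w hw huw
    rcases earlier_tri G v u w huw with h | h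
    · rw [G.dist_comm]
      exact (greedy_iff G v k w).1 hw u h hu
    · exact (greedy_iff G v k u).1 hu w h hw
  · intro N' hN' hle u hu
    by_contra hn
    obtain ⟨p, hp, _, hd⟩ := gnet_cover (G := G) v hk u
    have hne : u ≠ p := by
      rintro rfl; exact hn hp
    have := hN' u hu p (hle hp) hne
    omega

theorem base_mem {G : SimpleGraph V} (hG : G.Connected) (v : V) {k : ℕ} (hk : 1 ≤ k) : v ∈ gnet G v k := by
  obtain ⟨p, hp, hd, _⟩ := gnet_cover (G := G) v hk v
  rw [dist_self, Nat.le_zero, hG.dist_eq_zero_iff] at hd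
  subst hd
  exact hp

/-- short walks to the base point in the greedy net graph -/
theorem gnet_walk {G : SimpleGraph V} (hG : G.Connected) (v : V) {k : ℕ} (hk : 1 ≤ k) (L : ℕ) :
    ∀ p : gnet G v k, G.dist v p.1 ≤ L →
      ∃ w : (netGraph G k (gnet G v k)).Walk p ⟨v, base_mem hG v hk⟩, (k + 1) * w.length ≤ L + (k + 1) := by
  induction L using Nat.strong_induction_on with
  | _ L ih =>
    intro p hp
    by_cases hpv : p = ⟨v, base_mem hG v hk⟩
    · subst hpv
      exact ⟨Walk.nil, by simp⟩
    have hpv' : p.1 ≠ v := fun h => hpv (Subtype.ext h)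
    by_cases hL : G.dist v p.1 ≤ 2 * k
    · have hadj : (netGraph G k (gnet G v k)).Adj p ⟨v, base_mem hG v hk⟩ := by
        refine ⟨?_, ?_⟩
        · exact hG.pos_dist_of_ne hpv'
        · change G.dist p.1 v ≤ 2 * k
          rw [G.dist_comm]; exact hL
      exact ⟨Walk.cons hadj Walk.nil, by simp⟩
    · obtain ⟨u, hu1, hu2⟩ := exists_between hG p.1 v (k + 1)
      obtain ⟨q, hq, hq1, hq2⟩ := gnet_cover (G := G) v hk u
      have e1 : G.dist p.1 v = G.dist v p.1 := G.dist_comm
      have e2 : G.dist u v = G.dist v u := G.dist_comm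
      have hq4 : G.dist v q ≤ G.dist v p.1 - (k + 1) := by omega
      have hq3 : G.dist v q ≤ L - (k + 1) := by omega
      obtain ⟨w, hw⟩ := ih (L - (k + 1)) (by omega) ⟨q, hq⟩ hq3
      have hadj : (netGraph G k (gnet G v k)).Adj p ⟨q, hq⟩ := by
        refine ⟨?_, ?_⟩
        · apply hG.pos_dist_of_ne
          intro h
          change p.1 = q at h
          rw [← h] at hq4
          omega
        · change G.dist p.1 q ≤ 2 * k
          have := hG.dist_triangle (u := p.1) (v := u) (w := q)
          omega
      refine ⟨Walk.cons hadj w, ?_⟩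
      rw [Walk.length_cons, mul_add, mul_one]
      omega

theorem netGraph_gnet_connected {G : SimpleGraph V} (hG : G.Connected) (v : V) {k : ℕ} (hk : 1 ≤ k) :
    (netGraph G k (gnet G v k)).Connected := by
  have : Nonempty (gnet G v k) := ⟨⟨v, base_mem hG v hk⟩⟩
  refine ⟨fun p q => ?_⟩
  obtain ⟨w1, _⟩ := gnet_walk hG v hk _ p le_rfl
  obtain ⟨w2, _⟩ := gnet_walk hG v hk _ q le_rfl
  exact ⟨w1.append w2.reverse⟩

theorem gnet_dist {G : SimpleGraph V} (hG : G.Connected) (v : V) {k : ℕ} (hk : 1 ≤ k) (p : gnet G v k) :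
    (k + 1) * (netGraph G k (gnet G v k)).dist p ⟨v, base_mem hG v hk⟩ ≤ G.dist v p.1 + (k + 1) := by
  obtain ⟨w, hw⟩ := gnet_walk hG v hk _ p le_rfl
  refine le_trans (Nat.mul_le_mul_left _ (dist_le w)) hw

/-- distances in a net graph are at least `d_G / (2k)` -/
theorem dist_le_netGraph {G : SimpleGraph V} (hG : G.Connected) {k : ℕ} {N : Set V}
    (hc : (netGraph G k N).Connected) (p q : N) : G.dist p.1 q.1 ≤ 2 * k * (netGraph G k N).dist p q := by
  obtain ⟨w, hw⟩ := hc.exists_walk_length_eq_dist p q
  rw [← hw]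
  clear hw
  induction w with
  | nil => simp
  | cons h w ih =>
    rename_i a b c
    have h1 : G.dist a.1 b.1 ≤ 2 * k := h.2
    have := hG.dist_triangle (u := a.1) (v := b.1) (w := c.1)
    rw [Walk.length_cons, mul_add, mul_one]
    omega

end Pool.Agent.NetGraphs
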