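import Pool.Agent.NetGraphs.Main

set_option autoImplicit false

namespace Pool.Agent.NetGraphs

open SimpleGraph Filter Topology

/-- the bi-infinite path -/
def line : SimpleGraph ℤ where
  Adj a b := |a - b| = 1
  symm := ⟨fun a b h => by rw [abs_sub_comm]; exact h⟩
  loopless := ⟨fun a h => by simp at h⟩

theorem line_walk (a : ℤ) (n : ℕ) : ∃ w : line.Walk a (a + n), w.length = n := by
  induction n with
  | zero => exact ⟨Walk.nil.copy rfl (by simp), by simp⟩
  | succ n ih =>
    obtain ⟨w, hw⟩ := ih
    have hadj : line.Adj (a + n) (a + (n + 1 : ℕ)) := by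
      change |a + n - (a + (n + 1 : ℕ))| = 1
      push_cast
      rw [show a + (n : ℤ) - (a + (n + 1)) = -1 by ring]
      rfl
    refine ⟨w.append (Walk.cons hadj Walk.nil), ?_⟩
    rw [Walk.length_append, hw]; rfl

theorem line_lower (a b : ℤ) (w : line.Walk a b) : |a - b| ≤ w.length := by
  induction w with
  | nil => simp
  | cons h w ih =>
    rename_i x y z
    have h1 : |x - y| = 1 := h
    have h2 : |x - z| ≤ |x - y| + |y - z| := abs_sub_le x y z
    rw [Walk.length_cons]
    push_cast
    linarith

theorem line_connected : line.Connected := by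
  refine ⟨fun a b => ?_⟩
  rcases le_total a b with h | h
  · obtain ⟨w, _⟩ := line_walk a (b - a).toNat
    exact ⟨w.copy rfl (by rw [Int.toNat_of_nonneg (by omega)]; ring)⟩
  · obtain ⟨w, _⟩ := line_walk b (a - b).toNat
    exact ⟨(w.copy rfl (by rw [Int.toNat_of_nonneg (by omega)]; ring)).reverse⟩

theorem line_dist (a b : ℤ) : (line.dist a b : ℤ) = |a - b| := by
  apply le_antisymm
  · have key : ∀ x y : ℤ, x ≤ y → (line.dist x y : ℤ) ≤ |x - y| := by
      intro x y h
      obtain ⟨w, hw⟩ := line_walk x (y - x).toNat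
      have e : x + ((y - x).toNat : ℤ) = y := by rw [Int.toNat_of_nonneg (by omega)]; ring
      have h1 := dist_le (w.copy rfl e)
      rw [Walk.length_copy, hw] at h1
      have h2 : ((y - x).toNat : ℤ) = y - x := Int.toNat_of_nonneg (by omega)
      rw [abs_sub_comm, abs_of_nonneg (by omega)]
      omega
    rcases le_total a b with h | h
    · exact key a b h
    · rw [line.dist_comm, abs_sub_comm]; exact key b a h
  · obtain ⟨w, hw⟩ := line_connected.exists_walk_length_eq_dist a b
    rw [← hw]
    exact line_lower a b w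

theorem line_standing : Standing line := by
  refine ⟨line_connected, fun v => ?_, inferInstance⟩
  refine (Set.toFinite {v - 1, v + 1}).subset ?_
  intro u hu
  have h : |v - u| = 1 := hu
  rw [Set.mem_insert_iff, Set.mem_singleton_iff]
  rcases abs_eq (by norm_num : (0 : ℤ) ≤ 1) |>.1 h with h1 | h1
  · left; omega
  · right; omega

theorem line_transitive : VertexTransitive line := by
  intro u v
  refine ⟨{ toEquiv := Equiv.addRight (v - u), map_rel_iff' := ?_ }, ?_⟩
  · intro a b
    change |a + (v - u) - (b + (v - u))| = 1 ↔ |a - b| = 1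
    rw [add_sub_add_right_eq_sub]
  · change u + (v - u) = v
    ring

section net

variable {k : ℕ} {N : Set ℤ}

theorem net_cover (hN : IsNet line k N) (x : ℤ) : ∃ p ∈ N, |x - p| ≤ max ((k : ℤ) - 1) 0 := by
  by_contra h
  push Not at h
  have hx : x ∉ N := by
    intro hx
    have := h x hx
    simp at this
  have hsep : Separated line k (insert x N) := by
    intro u hu v hv huv
    have key : ∀ p ∈ N, k ≤ line.dist x p := by
      intro p hp
      have h1 := h p hp
      have h2 := line_dist x p
      have h3 : (k : ℤ) - 1 ≤ max ((k : ℤ) - 1) 0 := le_max_left _ _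
      omega
    rcases Set.mem_insert_iff.1 hu with hu' | hu'
    · rcases Set.mem_insert_iff.1 hv with hv' | hv'
      · exact absurd (hu'.trans hv'.symm) huv
      · rw [hu']; exact key v hv'
    · rcases Set.mem_insert_iff.1 hv with hv' | hv'
      · rw [hv', line.dist_comm]; exact key u hu'
      · exact hN.prop u hu' v hv' huv
  exact hx (hN.le_of_ge hsep (Set.subset_insert x N) (Set.mem_insert x N))

theorem net_cover' (hk : 1 ≤ k) (hN : IsNet line k N) (x : ℤ) : ∃ p : N, |x - p.1| ≤ (k : ℤ) - 1 := by
  obtain ⟨p, hp, h⟩ := net_cover hN x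
  refine ⟨⟨p, hp⟩, ?_⟩
  rw [max_eq_left (by omega)] at h
  exact h

theorem net_adj (p q : N) (h0 : p.1 ≠ q.1) (h : |p.1 - q.1| ≤ 2 * k) : (netGraph line k N).Adj p q := by
  have h1 := line_dist p.1 q.1
  have h2 : 0 < |p.1 - q.1| := abs_pos.2 (sub_ne_zero.2 h0)
  refine ⟨?_, ?_⟩
  · omega
  · omega

theorem net_adj_iff (p q : N) : (netGraph line k N).Adj p q ↔ p.1 ≠ q.1 ∧ |p.1 - q.1| ≤ 2 * k := by
  constructor
  · intro h
    have h1 := line_dist p.1 q.1
    have h2 : 0 < line.dist p.1 q.1 := h.1
    have h3 : line.dist p.1 q.1 ≤ 2 * k := h.2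
    refine ⟨?_, by omega⟩
    intro h4
    rw [h4] at h2
    simp at h2
  · rintro ⟨h1, h2⟩
    exact net_adj p q h1 h2

theorem net_reach (hk : 1 ≤ k) (hN : IsNet line k N) (n : ℕ) :
    ∀ p q : N, p.1 ≤ q.1 → q.1 - p.1 ≤ n → (netGraph line k N).Reachable p q := by
  induction n using Nat.strong_induction_on with
  | _ n ih =>
    intro p q hpq hn
    by_cases h0 : p.1 = q.1
    · rw [Subtype.ext h0]
    by_cases h1 : q.1 - p.1 ≤ 2 * k
    · refine (net_adj p q h0 ?_).reachable
      rw [abs_sub_comm, abs_of_nonneg (by omega)]; exact h1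
    · obtain ⟨r, hr⟩ := net_cover' hk hN (p.1 + k + 1)
      rw [abs_le] at hr
      have h2 : (netGraph line k N).Adj p r := by
        refine net_adj p r (by omega) ?_
        rw [abs_sub_comm, abs_of_nonneg (by omega)]; omega
      have h3 := ih (q.1 - r.1).toNat (by omega) r q (by omega) (by omega)
      exact h2.reachable.trans h3

theorem net_connected (hk : 1 ≤ k) (hN : IsNet line k N) : (netGraph line k N).Connected := by
  obtain ⟨o, _⟩ := net_cover' hk hN 0
  have : Nonempty N := ⟨o⟩
  refine ⟨fun p q => ?_⟩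
  rcases le_total p.1 q.1 with h | h
  · exact net_reach hk hN (q.1 - p.1).toNat p q h (by omega)
  · exact (net_reach hk hN (p.1 - q.1).toNat q p h (by omega)).symm

theorem net_dist_le_one (p q : N) (h : |p.1 - q.1| ≤ 2 * k) : (netGraph line k N).dist p q ≤ 1 := by
  by_cases h0 : p.1 = q.1
  · rw [Subtype.ext h0, dist_self]; omega
  · exact (dist_eq_one_iff_adj.2 (net_adj p q h0 h)).le

/-- a path in the net graph passes near every net point between its ends -/
theorem net_between (hc : (netGraph line k N).Connected) (q : N) {a b : N} (w : (netGraph line k N).Walk a b) :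
    a.1 ≤ q.1 → q.1 ≤ b.1 →
      (netGraph line k N).dist a q + (netGraph line k N).dist q b ≤ w.length + 1 := by
  induction w with
  | nil =>
    rename_i u
    intro h1 h2
    have h3 : u = q := Subtype.ext (le_antisymm h1 h2)
    rw [h3]; simp
  | cons h w ih =>
    rename_i x y z
    intro h1 h2
    rw [Walk.length_cons]
    by_cases h3 : y.1 ≤ q.1
    · have h4 := ih h3 h2
      have h5 : (netGraph line k N).dist x q ≤ (netGraph line k N).dist x y + (netGraph line k N).dist y q :=
        hc.dist_triangle
      have h6 : (netGraph line k N).dist x y = 1 := dist_eq_one_iff_adj.2 h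
      omega
    · push Not at h3
      have h4 := ((net_adj_iff x y).1 h).2
      rw [abs_le] at h4
      have h5 : (netGraph line k N).dist x q ≤ 1 := net_dist_le_one x q (by rw [abs_le]; constructor <;> omega)
      have h6 : (netGraph line k N).dist q y ≤ 1 := net_dist_le_one q y (by rw [abs_le]; constructor <;> omega)
      have h7 : (netGraph line k N).dist q z ≤ (netGraph line k N).dist q y + (netGraph line k N).dist y z :=
        hc.dist_triangle
      have h8 := dist_le w
      omega

theorem net_between' (hc : (netGraph line k N).Connected) (a q b : N) (h1 : a.1 ≤ q.1) (h2 : q.1 ≤ b.1) :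
    (netGraph line k N).dist a q + (netGraph line k N).dist q b ≤ (netGraph line k N).dist a b + 1 := by
  obtain ⟨w, hw⟩ := hc.exists_walk_length_eq_dist a b
  rw [← hw]
  exact net_between hc q w h1 h2

/-- signed distance from a base point -/
noncomputable def rh (k : ℕ) (N : Set ℤ) (o p : N) : ℤ :=
  if o.1 ≤ p.1 then ((netGraph line k N).dist o p : ℤ) else -((netGraph line k N).dist o p : ℤ)

theorem rh_close (hc : (netGraph line k N).Connected) (o p q : N) (h : p.1 ≤ q.1) :
    |rh k N o q - rh k N o p - (netGraph line k N).dist p q| ≤ 1 := by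
  unfold rh
  have t1 : (netGraph line k N).dist o q ≤ (netGraph line k N).dist o p + (netGraph line k N).dist p q :=
    hc.dist_triangle
  have t2 : (netGraph line k N).dist o p ≤ (netGraph line k N).dist o q + (netGraph line k N).dist p q := by
    have := hc.dist_triangle (u := o) (v := q) (w := p)
    rwa [(netGraph line k N).dist_comm (u := q) (v := p)] at this
  have t3 : (netGraph line k N).dist p q ≤ (netGraph line k N).dist o p + (netGraph line k N).dist o q := by
    have := hc.dist_triangle (u := p) (v := o) (w := q)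
    rwa [(netGraph line k N).dist_comm (u := p) (v := o)] at this
  split_ifs with h1 h2 h2
  · have := net_between' hc o p q h2 h
    rw [abs_le]; constructor <;> omega
  · have := net_between' hc p o q (by omega) h1
    rw [(netGraph line k N).dist_comm (u := p) (v := o)] at this
    rw [abs_le]; constructor <;> omega
  · omega
  · have := net_between' hc p q o h (by omega)
    rw [(netGraph line k N).dist_comm (u := q) (v := o), (netGraph line k N).dist_comm (u := p) (v := o)] at this
    rw [abs_le]; constructor <;> omega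

theorem rh_close' (hc : (netGraph line k N).Connected) (o p q : N) :
    |(|rh k N o p - rh k N o q| : ℤ) - (netGraph line k N).dist p q| ≤ 1 := by
  have key : ∀ a b : N, a.1 ≤ b.1 → |(|rh k N o b - rh k N o a| : ℤ) - (netGraph line k N).dist a b| ≤ 1 := by
    intro a b hab
    have h1 := rh_close hc o a b hab
    rw [abs_le] at h1 ⊢
    rcases abs_cases (rh k N o b - rh k N o a) with h2 | h2
    · rw [h2.1]; constructor <;> omega
    · rw [h2.1]; constructor <;> omega
  rcases le_total p.1 q.1 with h | h
  · rw [abs_sub_comm (rh k N o p)]; exact key p q h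
  · rw [(netGraph line k N).dist_comm]; exact key q p h

theorem net_far (hk : 1 ≤ k) (hN : IsNet line k N) (o : N) (n : ℕ) :
    ∃ q : N, o.1 < q.1 ∧ n ≤ (netGraph line k N).dist o q := by
  obtain ⟨q, hq⟩ := net_cover' hk hN (o.1 + 2 * k * n + k)
  rw [abs_le] at hq
  have hpos : (0 : ℤ) ≤ 2 * k * n := by positivity
  refine ⟨q, by omega, ?_⟩
  have h1 := dist_le_netGraph line_connected (net_connected hk hN) o q
  have h2 := line_dist o.1 q.1
  rw [abs_sub_comm, abs_of_nonneg (by omega)] at h2
  by_contra h3
  push Not at h3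
  have h4 : 2 * k * ((netGraph line k N).dist o q) ≤ 2 * k * n := Nat.mul_le_mul_left _ h3.le
  have h5 : (2 * k * ((netGraph line k N).dist o q) : ℤ) ≤ 2 * k * n := by exact_mod_cast h4
  have h6 : (line.dist o.1 q.1 : ℤ) ≤ 2 * k * ((netGraph line k N).dist o q) := by exact_mod_cast h1
  omega

theorem net_far' (hk : 1 ≤ k) (hN : IsNet line k N) (o : N) (n : ℕ) :
    ∃ q : N, q.1 < o.1 ∧ n ≤ (netGraph line k N).dist o q := by
  obtain ⟨q, hq⟩ := net_cover' hk hN (o.1 - 2 * k * n - k)
  rw [abs_le] at hq
  have hpos : (0 : ℤ) ≤ 2 * k * n := by positivity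
  refine ⟨q, by omega, ?_⟩
  have h1 := dist_le_netGraph line_connected (net_connected hk hN) o q
  have h2 := line_dist o.1 q.1
  rw [abs_of_nonneg (by omega)] at h2
  by_contra h3
  push Not at h3
  have h4 : 2 * k * ((netGraph line k N).dist o q) ≤ 2 * k * n := Nat.mul_le_mul_left _ h3.le
  have h5 : (2 * k * ((netGraph line k N).dist o q) : ℤ) ≤ 2 * k * n := by exact_mod_cast h4
  have h6 : (line.dist o.1 q.1 : ℤ) ≤ 2 * k * ((netGraph line k N).dist o q) := by exact_mod_cast h1
  omega

theorem rh_surj (hk : 1 ≤ k) (hN : IsNet line k N) (o : N) (n : ℤ) : ∃ p : N, rh k N o p = n := by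
  have hc := net_connected hk hN
  rcases lt_trichotomy n 0 with h | h | h
  · obtain ⟨q, hq1, hq2⟩ := net_far' hk hN o n.natAbs
    obtain ⟨c, hc1, hc2⟩ := exists_between hc o q n.natAbs
    have h3 : (netGraph line k N).dist o q ≤ (netGraph line k N).dist o c + (netGraph line k N).dist c q :=
      hc.dist_triangle
    have hco : c.1 < o.1 := by
      by_contra hge
      push Not at hge
      have h4 := net_between' hc q o c hq1.le hge
      rw [(netGraph line k N).dist_comm (u := q) (v := o), (netGraph line k N).dist_comm (u := q) (v := c)] at h4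
      omega
    refine ⟨c, ?_⟩
    unfold rh
    rw [if_neg (by omega)]
    omega
  · refine ⟨o, ?_⟩
    unfold rh
    rw [if_pos le_rfl, dist_self]; simp [h]
  · obtain ⟨q, hq1, hq2⟩ := net_far hk hN o n.natAbs
    obtain ⟨c, hc1, hc2⟩ := exists_between hc o q n.natAbs
    have h3 : (netGraph line k N).dist o q ≤ (netGraph line k N).dist o c + (netGraph line k N).dist c q :=
      hc.dist_triangle
    have hco : o.1 ≤ c.1 := by
      by_contra hge
      push Not at hge
      have h4 := net_between' hc c o q hge.le hq1.le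
      rw [(netGraph line k N).dist_comm (u := c) (v := o)] at h4
      omega
    refine ⟨c, ?_⟩
    unfold rh
    rw [if_pos hco]
    omega

theorem line_rough (hk : 1 ≤ k) (hN : IsNet line k N) (C : ℝ) (hC : 1 < C) :
    ∃ f : ℤ → N, IsRoughIsometry C line (netGraph line k N) f := by
  have hc := net_connected hk hN
  obtain ⟨o, _⟩ := net_cover' hk hN 0
  choose f hf using rh_surj hk hN o
  have hinv : C⁻¹ ≤ 1 := inv_le_one_of_one_le₀ hC.le
  refine ⟨f, fun x y => ?_, fun y => ?_⟩
  · have h1 := rh_close' hc o (f x) (f y)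
    rw [hf, hf, ← line_dist x y] at h1
    have h2 : (line.dist x y : ℤ) ≤ (netGraph line k N).dist (f x) (f y) + 1 := by
      rw [abs_le] at h1; omega
    have h3 : ((netGraph line k N).dist (f x) (f y) : ℤ) ≤ line.dist x y + 1 := by
      rw [abs_le] at h1; omega
    have h2' : (line.dist x y : ℝ) ≤ (netGraph line k N).dist (f x) (f y) + 1 := by exact_mod_cast h2
    have h3' : ((netGraph line k N).dist (f x) (f y) : ℝ) ≤ line.dist x y + 1 := by exact_mod_cast h3
    have h4 : (0 : ℝ) ≤ (netGraph line k N).dist (f x) (f y) := Nat.cast_nonneg _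
    constructor
    · have : C⁻¹ * ((netGraph line k N).dist (f x) (f y) : ℝ) ≤ 1 * ((netGraph line k N).dist (f x) (f y) : ℝ) :=
        mul_le_mul_of_nonneg_right hinv h4
      linarith
    · nlinarith
  · refine ⟨rh k N o y, ?_⟩
    have h1 := rh_close' hc o (f (rh k N o y)) y
    rw [hf, sub_self, abs_zero, zero_sub, abs_neg] at h1
    have h2 : ((netGraph line k N).dist (f (rh k N o y)) y : ℤ) ≤ 1 := by
      rw [abs_le] at h1; omega
    have h2' : ((netGraph line k N).dist (f (rh k N o y)) y : ℝ) ≤ 1 := by exact_mod_cast h2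
    linarith

theorem line_ge_one {W : Type} (H : SimpleGraph W) (C : ℝ) (hC : 0 < C) (f : ℤ → W)
    (hf : IsRoughIsometry C line H f) : 1 ≤ C := by
  by_contra h
  push Not at h
  have hpos : 0 < 1 - C ^ 2 := by nlinarith
  obtain ⟨n, hn⟩ := exists_nat_gt ((C + C ^ 3) / (1 - C ^ 2))
  rw [div_lt_iff₀ hpos] at hn
  have h1 := hf.1 0 (n : ℤ)
  have h2 : (line.dist 0 (n : ℤ) : ℝ) = n := by
    have h3 := line_dist 0 (n : ℤ)
    rw [zero_sub, abs_neg, abs_of_nonneg (by positivity)] at h3
    exact_mod_cast h3
  rw [h2] at h1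
  obtain ⟨h3, h4⟩ := h1
  have h5 : (H.dist (f 0) (f (n : ℤ)) : ℝ) ≤ C * (n + C) := by
    have : C⁻¹ * (H.dist (f 0) (f (n : ℤ)) : ℝ) ≤ n + C := by linarith
    rw [inv_mul_le_iff₀ hC] at this
    exact this
  have h6 : C * (H.dist (f 0) (f (n : ℤ)) : ℝ) ≤ C * (C * (n + C)) := mul_le_mul_of_nonneg_left h5 hC.le
  nlinarith

end net

theorem line_const (N : ℕ → Set ℤ) (hN : NetChoice line N) (k : ℕ) (hk : 1 ≤ k) : CC line N k = 1 := by
  unfold CC roughConst
  apply le_antisymm
  · apply le_of_forall_gt
    intro c hc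
    by_cases hctop : c = ⊤
    · subst hctop
      obtain ⟨f, hf⟩ := line_rough hk (hN k hk) 2 (by norm_num)
      refine lt_of_le_of_lt (iInf_le _ ⟨2, by norm_num, f, hf⟩) ?_
      exact ENNReal.ofReal_lt_top
    · have hc1 : 1 < c.toReal := by
        rw [← ENNReal.toReal_one]
        exact (ENNReal.toReal_lt_toReal ENNReal.one_ne_top hctop).2 hc
      obtain ⟨C, hC1, hC2⟩ := _root_.exists_between hc1
      obtain ⟨f, hf⟩ := line_rough hk (hN k hk) C hC1
      refine lt_of_le_of_lt (iInf_le _ ⟨C, by linarith, f, hf⟩) ?_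
      rw [ENNReal.ofReal_lt_iff_lt_toReal (by linarith) hctop]
      exact hC2
  · apply le_iInf
    rintro ⟨C, hC, f, hf⟩
    have := line_ge_one _ C hC f hf
    rw [← ENNReal.ofReal_one]
    exact ENNReal.ofReal_le_ofReal this

theorem line_sub : SubScaleInvariant line := by
  intro N hN
  refine (tendsto_const_nhds).congr' ?_
  rw [EventuallyEq, eventually_atTop]
  exact ⟨1, fun k hk => (line_const N hN k hk).symm⟩

end Pool.Agent.NetGraphs
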