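import Pool.Agent.NetGraphs.Doubling

set_option autoImplicit false

namespace Pool.Agent.NetGraphs

open SimpleGraph Filter Topology

variable {V W : Type*}

theorem IsRoughIsometry.mono {C C' : ℝ} (h0 : 0 < C) (h : C ≤ C') {G : SimpleGraph V} {H : SimpleGraph W}
    {f : V → W} (hf : IsRoughIsometry C G H f) : IsRoughIsometry C' G H f := by
  have hi : C'⁻¹ ≤ C⁻¹ := inv_anti₀ h0 h
  refine ⟨fun x y => ⟨?_, ?_⟩, fun y => ?_⟩
  · have h1 := (hf.1 x y).1
    have h2 : C'⁻¹ * (H.dist (f x) (f y) : ℝ) ≤ C⁻¹ * (H.dist (f x) (f y) : ℝ) :=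
      mul_le_mul_of_nonneg_right hi (Nat.cast_nonneg _)
    linarith
  · have h1 := (hf.1 x y).2
    have h2 : C * (H.dist (f x) (f y) : ℝ) ≤ C' * (H.dist (f x) (f y) : ℝ) :=
      mul_le_mul_of_nonneg_right h (Nat.cast_nonneg _)
    linarith
  · obtain ⟨x, hx⟩ := hf.2 y
    exact ⟨x, by linarith⟩

/-- the counting estimate -/
theorem key_bound {G : SimpleGraph V} (hG : Standing G) (ht : VertexTransitive G) (v : V) {k : ℕ} (hk : 1 ≤ k)
    {C : ℝ} (hC : 0 < C) (f : V → gnet G v k) (hf : IsRoughIsometry C G (netGraph G k (gnet G v k)) f)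
    (R ρ : ℕ) (hR : 2 * C ≤ R) :
    (ball G v ((ρ * k : ℕ) : ℝ)).ncard ≤
      (ball G v (C * (2 * C + ρ + 1) + C)).ncard * (ball G v (((2 * R + 1) * k : ℕ) : ℝ)).ncard := by
  classical
  have hcon := hG.connected
  set H := netGraph G k (gnet G v k) with hH
  have hHc : H.Connected := netGraph_gnet_connected hcon v hk
  set o : gnet G v k := ⟨v, base_mem hcon v hk⟩ with ho
  -- the points of the net near the base point
  set A : Set (gnet G v k) := {p | G.dist v p.1 ≤ ρ * k} with hA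
  have hAfin : A.Finite := by
    have h1 : (ball G v ((ρ * k : ℕ) : ℝ)).Finite := ball_finite hG v _
    refine (h1.preimage (Subtype.val_injective.injOn (s := Subtype.val ⁻¹' (ball G v ((ρ * k : ℕ) : ℝ))))).subset ?_
    intro p hp
    change (G.dist v p.1 : ℝ) ≤ ((ρ * k : ℕ) : ℝ)
    exact_mod_cast hp
  -- a maximal separated subset
  obtain ⟨S, hS⟩ := (hAfin.finite_subsets.subset (fun S (hS : S ⊆ A ∧ ∀ a ∈ S, ∀ b ∈ S, a ≠ b →
    2 * k * R ≤ G.dist a.1 b.1) => hS.1) :
    {S : Set (gnet G v k) | S ⊆ A ∧ ∀ a ∈ S, ∀ b ∈ S, a ≠ b → 2 * k * R ≤ G.dist a.1 b.1}.Finite).exists_maximal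
      ⟨∅, Set.empty_subset _, fun a ha => absurd ha (Set.notMem_empty a)⟩
  have hSA : S ⊆ A := hS.prop.1
  have hSsep := hS.prop.2
  have hSfin : S.Finite := hAfin.subset hSA
  have hScov : ∀ p ∈ A, ∃ s ∈ S, G.dist s.1 p.1 ≤ 2 * k * R := by
    intro p hp
    by_contra hcontra
    push Not at hcontra
    have hins : insert p S ⊆ A ∧ ∀ a ∈ insert p S, ∀ b ∈ insert p S, a ≠ b → 2 * k * R ≤ G.dist a.1 b.1 := by
      refine ⟨Set.insert_subset hp hSA, ?_⟩
      intro a ha b hb hab
      rcases Set.mem_insert_iff.1 ha with ha' | ha'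
      · rcases Set.mem_insert_iff.1 hb with hb' | hb'
        · exact absurd (ha'.trans hb'.symm) hab
        · rw [ha', G.dist_comm]; exact (hcontra b hb').le
      · rcases Set.mem_insert_iff.1 hb with hb' | hb'
        · rw [hb']; exact (hcontra a ha').le
        · exact hSsep a ha' b hb' hab
    have hpS : p ∈ S := hS.le_of_ge hins (Set.subset_insert p S) (Set.mem_insert p S)
    have := hcontra p hpS
    simp at this
  -- preimages
  choose X hX using hf.2
  have hinj : Set.InjOn X S := by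
    intro s hs s' hs' hss
    by_contra hne
    have h1 := hSsep s hs s' hs' hne
    have h2 := dist_le_netGraph hcon hHc s s'
    have h3 : R ≤ H.dist s s' := by
      have : 2 * k * R ≤ 2 * k * H.dist s s' := h1.trans h2
      exact Nat.le_of_mul_le_mul_left this (by omega)
    have h4 : H.dist s s' ≤ H.dist s (f (X s)) + H.dist (f (X s)) s' := hHc.dist_triangle
    have h5 := hX s
    have h6 := hX s'
    rw [← hss] at h6
    rw [H.dist_comm] at h5
    have h4' : (H.dist s s' : ℝ) ≤ H.dist s (f (X s)) + H.dist (f (X s)) s' := by exact_mod_cast h4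
    have h3' : (R : ℝ) ≤ H.dist s s' := by exact_mod_cast h3
    linarith
  have hmap : ∀ s ∈ S, X s ∈ ball G (X o) (C * (2 * C + ρ + 1) + C) := by
    intro s hs
    change (G.dist (X o) (X s) : ℝ) ≤ _
    have h1 := (hf.1 (X o) (X s)).2
    have h2 : H.dist (f (X o)) (f (X s)) ≤ H.dist (f (X o)) o + (H.dist o s + H.dist s (f (X s))) := by
      have a1 : H.dist (f (X o)) (f (X s)) ≤ H.dist (f (X o)) o + H.dist o (f (X s)) := hHc.dist_triangle
      have a2 : H.dist o (f (X s)) ≤ H.dist o s + H.dist s (f (X s)) := hHc.dist_triangle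
      omega
    have h2' : (H.dist (f (X o)) (f (X s)) : ℝ) ≤ H.dist (f (X o)) o + (H.dist o s + H.dist s (f (X s))) := by
      exact_mod_cast h2
    have h3 := hX o
    have h4 := hX s
    rw [H.dist_comm] at h4
    have h5 : H.dist o s ≤ ρ + 1 := by
      have b1 := gnet_dist hcon v hk s
      have b2 : G.dist v s.1 ≤ ρ * k := hSA hs
      have b3 : (k + 1) * H.dist s o ≤ (k + 1) * (ρ + 1) := by
        refine b1.trans ?_
        nlinarith
      have b4 := Nat.le_of_mul_le_mul_left b3 (by omega)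
      rw [H.dist_comm]; exact b4
    have h5' : (H.dist o s : ℝ) ≤ ρ + 1 := by exact_mod_cast h5
    have h6 : (H.dist (f (X o)) (f (X s)) : ℝ) ≤ 2 * C + ρ + 1 := by linarith
    have h7 := mul_le_mul_of_nonneg_left h6 hC.le
    linarith
  have hcard : S.ncard ≤ (ball G v (C * (2 * C + ρ + 1) + C)).ncard := by
    rw [ball_card_eq hcon ht v (X o)]
    exact Set.ncard_le_ncard_of_injOn X hmap hinj (ball_finite hG _ _)
  -- the cover
  have hcov : (ball_finite hG v ((ρ * k : ℕ) : ℝ)).toFinset ⊆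
      hSfin.toFinset.biUnion (fun s => (ball_finite hG s.1 (((2 * R + 1) * k : ℕ) : ℝ)).toFinset) := by
    intro u hu
    rw [Set.Finite.mem_toFinset] at hu
    have hu' : G.dist v u ≤ ρ * k := by
      have : (G.dist v u : ℝ) ≤ ((ρ * k : ℕ) : ℝ) := hu
      exact_mod_cast this
    obtain ⟨p, hp, hp1, hp2⟩ := gnet_cover (G := G) v hk u
    obtain ⟨s, hs, hs1⟩ := hScov ⟨p, hp⟩ (hp1.trans hu')
    rw [Finset.mem_biUnion]
    refine ⟨s, by rwa [Set.Finite.mem_toFinset], ?_⟩
    rw [Set.Finite.mem_toFinset]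
    change (G.dist s.1 u : ℝ) ≤ (((2 * R + 1) * k : ℕ) : ℝ)
    have h1 := hcon.dist_triangle (u := s.1) (v := p) (w := u)
    have h2 : G.dist p u = G.dist u p := G.dist_comm
    have h3 : (2 * R + 1) * k = 2 * k * R + k := by ring
    have h4 : G.dist s.1 p ≤ 2 * k * R := hs1
    have h5 : G.dist s.1 u ≤ (2 * R + 1) * k := by rw [h3]; omega
    exact_mod_cast h5
  have h1 := Finset.card_le_card hcov
  have h2 : (hSfin.toFinset.biUnion (fun s => (ball_finite hG s.1 (((2 * R + 1) * k : ℕ) : ℝ)).toFinset)).card ≤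
      hSfin.toFinset.card * (ball G v (((2 * R + 1) * k : ℕ) : ℝ)).ncard := by
    refine Finset.card_biUnion_le_card_mul _ _ _ ?_
    intro s _
    rw [← Set.ncard_eq_toFinset_card _ (ball_finite hG s.1 (((2 * R + 1) * k : ℕ) : ℝ))]
    exact (ball_card_eq hcon ht _ _ _).le
  rw [← Set.ncard_eq_toFinset_card _ (ball_finite hG v ((ρ * k : ℕ) : ℝ))] at h1
  rw [← Set.ncard_eq_toFinset_card _ hSfin] at h2
  exact h1.trans (h2.trans (Nat.mul_le_mul_right _ hcard))

/-- bounded rough isometry constants along the greedy nets force volume doubling -/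
theorem doubling_of_gnet {G : SimpleGraph V} (hG : Standing G) (ht : VertexTransitive G) (v : V)
    {C : ℝ} (hC : 0 < C) {k₀ : ℕ} (hk₀ : 1 ≤ k₀)
    (h : ∀ k, k₀ ≤ k → ∃ f : V → gnet G v k, IsRoughIsometry C G (netGraph G k (gnet G v k)) f) :
    VolumeDoubling G := by
  have hcon := hG.connected
  obtain ⟨R, hR⟩ := exists_nat_ge (2 * C)
  set Q : ℕ := 2 * R + 1 with hQ
  set b : ℕ → ℕ := fun n => (ball G v (n : ℝ)).ncard with hb
  set M : ℕ := (ball G v (C * (2 * C + ((4 * Q : ℕ) : ℝ) + 1) + C)).ncard with hM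
  have hkey : ∀ k, k₀ ≤ k → b (4 * Q * k) ≤ M * b (Q * k) := by
    intro k hk
    obtain ⟨f, hf⟩ := h k hk
    exact key_bound hG ht v (hk₀.trans hk) hC f hf R (4 * Q) hR
  have hpos : ∀ (u : V) (r : ℝ), 0 ≤ r → 1 ≤ (ball G u r).ncard := by
    intro u r hr
    rw [Nat.succ_le_iff, Set.ncard_pos (ball_finite hG u r)]
    exact ⟨u, ball_nonempty u hr⟩
  refine ⟨(M : ℝ) + b (2 * Q * k₀) + 1, by positivity, ?_⟩
  intro u r hr
  rw [ball_card_eq hcon ht u v, ball_card_eq hcon ht u v]
  have hQpos : (0 : ℝ) < Q := by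
    rw [hQ]; positivity
  have hbr : (1 : ℝ) ≤ ((ball G v r).ncard : ℝ) := by exact_mod_cast hpos v r hr.le
  rcases lt_or_ge r (Q * k₀ : ℝ) with hlt | hge
  · have h1 : (ball G v (2 * r)).ncard ≤ b (2 * Q * k₀) := by
      refine Set.ncard_le_ncard (ball_mono v ?_) (ball_finite hG _ _)
      push_cast
      nlinarith
    have h1' : ((ball G v (2 * r)).ncard : ℝ) ≤ (b (2 * Q * k₀) : ℝ) := by exact_mod_cast h1
    have h2 : (0 : ℝ) ≤ M := Nat.cast_nonneg _
    have h3 : (0 : ℝ) ≤ b (2 * Q * k₀) := Nat.cast_nonneg _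
    nlinarith
  · set k : ℕ := ⌊r / Q⌋₊ with hk
    have hk1 : k₀ ≤ k := by
      rw [hk]
      apply Nat.le_floor
      rw [le_div_iff₀ hQpos]
      linarith
    have hk2 : (k : ℝ) * Q ≤ r := by
      rw [← le_div_iff₀ hQpos]
      exact Nat.floor_le (by positivity)
    have hk3 : r < (k + 1) * Q := by
      rw [← div_lt_iff₀ hQpos]
      exact Nat.lt_floor_add_one _
    have hkpos : (1 : ℝ) ≤ k := by exact_mod_cast hk₀.trans hk1
    have h1 : (ball G v (2 * r)).ncard ≤ b (4 * Q * k) := by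
      refine Set.ncard_le_ncard (ball_mono v ?_) (ball_finite hG _ _)
      push_cast
      nlinarith
    have h2 : b (Q * k) ≤ (ball G v r).ncard := by
      refine Set.ncard_le_ncard (ball_mono v ?_) (ball_finite hG _ _)
      push_cast
      linarith
    have h3 : (ball G v (2 * r)).ncard ≤ M * (ball G v r).ncard :=
      h1.trans ((hkey k hk1).trans (Nat.mul_le_mul_left _ h2))
    have h3' : ((ball G v (2 * r)).ncard : ℝ) ≤ M * ((ball G v r).ncard : ℝ) := by exact_mod_cast h3
    have h4 : (0 : ℝ) ≤ b (2 * Q * k₀) := Nat.cast_nonneg _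
    nlinarith

theorem exists_rough_of_lt {G : SimpleGraph V} {H : SimpleGraph W} {C : ℝ}
    (h : roughConst G H < ENNReal.ofReal C) : ∃ f : V → W, IsRoughIsometry C G H f := by
  unfold roughConst at h
  rw [iInf_lt_iff] at h
  obtain ⟨⟨C', hC', f, hf⟩, hlt⟩ := h
  refine ⟨f, hf.mono hC' ?_⟩
  by_contra hcon
  push Not at hcon
  exact absurd (ENNReal.ofReal_le_ofReal hcon.le) (not_le.2 hlt)

theorem gnet_choice (G : SimpleGraph V) (v : V) : NetChoice G (gnet G v) := fun _ hk => gnet_isNet v hk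

/-- if the constants are eventually bounded for the greedy nets, then `G` has volume doubling -/
theorem doubling_of_bounded {G : SimpleGraph V} (hG : Standing G) (ht : VertexTransitive G)
    (h : ∀ N, NetChoice G N → ∃ C : ℝ, ∀ᶠ k in atTop, CC G N k ≤ ENNReal.ofReal C) : VolumeDoubling G := by
  obtain ⟨v⟩ := hG.connected.nonempty
  obtain ⟨C, hC⟩ := h _ (gnet_choice G v)
  rw [eventually_atTop] at hC
  obtain ⟨k₀, hk₀⟩ := hC
  refine doubling_of_gnet hG ht v (C := |C| + 1) (by positivity) (k₀ := max k₀ 1) (le_max_right _ _) ?_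
  intro k hk
  apply exists_rough_of_lt
  refine lt_of_le_of_lt (hk₀ k ((le_max_left _ _).trans hk)) ?_
  rw [ENNReal.ofReal_lt_ofReal_iff (by positivity)]
  have := le_abs_self C
  linarith

end Pool.Agent.NetGraphs
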